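import Pool.Agent.H2.K5.Unif

/-!
# MP_833c63_pr: the budget threshold for `K_5` in the budget-constrained random graph process

Full positive answer to Q1: if `t = o(n^(3/2))` or `b = o(Phi(n,t))`, then under every sequence of
`(t,b)`-strategies a.a.s. the purchased graph contains no `K_5`. The first part of the statement is
the question as posed, the second part is the uniform version: for every `ε > 0` and all large `n`,
for EVERY `(t,b)`-strategy the purchased graph contains a `K_5` with probability at most `ε` (so the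
same holds for randomised strategies).
-/

set_option autoImplicit false

namespace Pool.Agent.Results.MP_833c63_pr.BudgetKFive

open Filter Topology Asymptotics H2.K5

theorem result (t b : ℕ → ℕ)
    (htb : ∀ n, 2 ≤ n → 1 ≤ b n ∧ b n ≤ t n ∧ t n ≤ n.choose 2)
    (h : (fun n : ℕ => (t n : ℝ)) =o[atTop] (fun n : ℕ => (n : ℝ) ^ (3 / 2 : ℝ)) ∨
      (fun n : ℕ => (b n : ℝ)) =o[atTop] (fun n : ℕ => Phi n (t n))) :
    (∀ S : ∀ n, Strategy (Pair n), (∀ n, 2 ≤ n → IsTB (S n) (t n) (b n)) →
      Tendsto (fun n => probNoK5 n (t n) (S n)) atTop (𝓝 1)) ∧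
    (∀ ε : ℝ, 0 < ε → ∀ᶠ n : ℕ in atTop, ∀ S : Strategy (Pair n), IsTB S (t n) (b n) →
      1 - ε ≤ probNoK5 n (t n) S) := by
  refine ⟨fun S hS => final_seq t b htb h S hS, fun ε hε => ?_⟩
  filter_upwards [uniform_seq t b htb h ε hε] with n hn S hS
  rw [probNoK5_eq]
  linarith [hn S hS]

end Pool.Agent.Results.MP_833c63_pr.BudgetKFive
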